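import Pool.Agent.Z15.ME.Stm2

/-!
# MP_82c165_ag: the moduli space of self maps of `P^N` of degree `2` is rational for all `N`

Everything is in terms of the definitions of project ME of helper15 (`Pool.Agent.Z15.ME.Stm`): `Ix N 1`
the coordinates of the space of the self maps of degree `2` in `n = N + 1` variables, `act A A' c` the
self map `x ↦ A c(A' x)`, `GP N K` the pairs of inverse matrices, `Acts N 2 φ f`: `φ g f = g f g⁻¹`.

A self map of degree two is a commutative product on the vectors, `(e_j e_k)_i = T2 c i j k`. Let `f` be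
the generic product, `Hb f (x, y) = tr (L_x L_y)`, `lv f x = tr L_x`, `ev f` the vector with
`Hb f (ev f, x) = lv f x`, `La f = L_(ev f)`, `Fr f = (e, La e, …, La^N e)` (a canonical frame),
`uu f = Fr⁻¹ f Fr`. Its coefficients are invariant and generate the field of the invariants. They satisfy
`(N+1)^2` equations each of which can be solved for one coordinate.
-/

set_option autoImplicit false

open MvPolynomial Pool.Agent.Z15.ME

namespace Pool.Agent.T2h8.R2

section
variable {R : Type} [CommRing R] {n : ℕ}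

/-- the second derivatives -/
noncomputable def T2 (c : Fin n × Mon n 2 → R) (i j k : Fin n) : R :=
  constantCoeff (pderiv j (pderiv k (cmp c i)))

/-- the trace of the multiplication by `e_j` -/
noncomputable def lv (c : Fin n × Mon n 2 → R) (j : Fin n) : R := ∑ i, T2 c i i j

/-- the trace form -/
noncomputable def Hb (c : Fin n × Mon n 2 → R) : Matrix (Fin n) (Fin n) R :=
  Matrix.of fun j k => ∑ i, ∑ l, T2 c i l j * T2 c l i k

/-- `det Hb` times the vector `ev` -/
noncomputable def bv (c : Fin n × Mon n 2 → R) : Fin n → R := (Hb c).adjugate.mulVec (lv c)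

end

section
variable {R : Type} [Field R] {n : ℕ}

/-- the canonical vector -/
noncomputable def ev (c : Fin n × Mon n 2 → R) : Fin n → R := fun i => (Hb c).det⁻¹ * bv c i

/-- the multiplication by the canonical vector -/
noncomputable def La (c : Fin n × Mon n 2 → R) : Matrix (Fin n) (Fin n) R :=
  Matrix.of fun i k => ∑ j, ev c j * T2 c i k j

end

section
variable {R : Type} [Field R] {N : ℕ}

/-- the frame `(e, A e, …, A^N e)` -/
noncomputable def Fr (c : Ix N 1 → R) : Matrix (Fin (N + 1)) (Fin (N + 1)) R :=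
  Matrix.of fun i j => ((La c ^ (j : ℕ)).mulVec (ev c)) i

/-- `Fr⁻¹ c Fr` -/
noncomputable def uu (c : Ix N 1 → R) : Ix N 1 → R := act (Fr c)⁻¹ (Fr c) c

end

/-- the generic self map of degree `2`, with the action -/
structure D2 (N : ℕ) (K M : Type) [Field K] [CharZero K] [Field M] [Algebra K M] where
  hN : 1 ≤ N
  f : Ix N 1 → M
  ind : AlgebraicIndependent K f
  gen : IntermediateField.adjoin K (Set.range f) = ⊤
  φ : GP N K → M →ₐ[K] M
  hφ : Acts N 2 φ f

/-- (T2) the second derivatives. Proof: as `t_T3` in `Pool/Agent/T2h8/R3/T_T3.lean` (copy). (1) partial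
derivatives commute; (2) chain rule for `x ↦ A c(A' x)`; (3), (4) clear; (5) `x^α` has the constant
second derivative `α!` if `α = e_j + e_k`, and `0` for the other monomials of degree two. -/
def S_T2 : Prop := ∀ (n : ℕ) (R : Type) [CommRing R],
  (∀ (c : Fin n × Mon n 2 → R) i j k, T2 c i j k = T2 c i k j) ∧
  (∀ (A A' : Matrix (Fin n) (Fin n) R) (c : Fin n × Mon n 2 → R) i j k, T2 (act A A' c) i j k =
    ∑ i', ∑ j', ∑ k', A i i' * A' j' j * A' k' k * T2 c i' j' k') ∧
  (∀ (S : Type) [CommRing S] (σ : R →+* S) (c : Fin n × Mon n 2 → R) i j k,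
    T2 (fun p => σ (c p)) i j k = σ (T2 c i j k)) ∧
  ∀ (i j k : Fin n) (α : Mon n 2), α.1 = Finsupp.single j 1 + Finsupp.single k 1 →
    ∀ c : Fin n × Mon n 2 → R, T2 c i j k = (if j = k then 2 else 1) * c (i, α)

/-- (EQ) transformation of the covariants, from `S_T2`. Proof: `∑_i A_ii' A'_j'i = [i' = j']` for
`A' A = 1` (also `A A' = 1`, square matrices). `Hb` is symmetric (exchange `i`, `l`). For `bv`:
`adj (A'ᵀ H A') = adj A' adj H (adj A')ᵀ`, `adj A' = det A' • A`, or use the inverse of `Hb` when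
`det Hb ≠ 0`: `ev c = (Hb c)⁻¹ lv c`. -/
def S_EQ : Prop := (∀ (n : ℕ) (R : Type) [Field R] (c : Fin n × Mon n 2 → R) , (Hb c).det ≠ 0 →
  (Hb c).mulVec (ev c) = lv c ∧
  ∀ A A' : Matrix (Fin n) (Fin n) R, A * A' = 1 →
    Hb (act A A' c) = A'.transpose * Hb c * A' ∧ (Hb (act A A' c)).det ≠ 0 ∧
    ev (act A A' c) = A.mulVec (ev c) ∧ La (act A A' c) = A * La c * A') ∧
  (∀ (n : ℕ) (R S : Type) [CommRing R] [CommRing S] (σ : R →+* S) (c : Fin n × Mon n 2 → R),
    Hb (fun p => σ (c p)) = (Hb c).map σ ∧ ∀ i, bv (fun p => σ (c p)) i = σ (bv c i)) ∧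
  ∀ (n : ℕ) (R S : Type) [Field R] [Field S] (σ : R →+* S) (c : Fin n × Mon n 2 → R),
    La (fun p => σ (c p)) = (La c).map σ ∧ ∀ i, ev (fun p => σ (c p)) i = σ (ev c i)

/-- (EX) an example, from `S_T2`. Proof: `c` with `T2 c i j k = [j = k] [i = j or i + 1 = j]`, that is
`c (i, 2 e_j) = 1/2` if `i = j` or `i + 1 = j`, all other coefficients zero. So `e_0^2 = e_0`,
`e_{j+1}^2 = e_{j+1} + e_j`, `e_j e_k = 0` for `j ≠ k`. The matrix of `L_{e_j}` has one nonzero column,
number `j`; `Hb c = 1`, `lv c = (1, …, 1)`, `ev c = (1, …, 1)`, `La c = 1 + J`, `J e_{j+1} = e_j`,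
`J e_0 = 0`. `(1 + J)^k e = ∑_m (k choose m) J^m e`, `J^m e = (1, …, 1, 0, …, 0)` (`m` zeros), so `Fr` is
(matrix with the columns `J^m e`, `det = ±1`: reversing the order gives a triangular matrix) times
(Pascal's triangle, unitriangular). Other way: the columns of `Fr` are independent, as the entry number
`N - i` of `(1 + J)^k e` is `∑_{m ≤ i} (k choose m)`, a polynomial of degree `i` in `k`. -/
def S_EX : Prop := ∀ N : ℕ, ∃ c : Ix N 1 → ℚ, (Hb c).det ≠ 0 ∧ (Fr c).det ≠ 0

/-- (GN) the generic self map, from `S_EX`, `S_EQ` (see also `Pool/Agent/T2h8/R3/T_GN.lean`). Proof: `f`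
is algebraically independent over `ℚ`. `δ = det Hb` and `δ^? det Fr = det (bv, (δ La) bv, …)` are
polynomials with rational coefficients in the coefficients of the self map (images of the corresponding
elements of the polynomial ring under `X ↦ f`, and under `X ↦ c`), and these polynomials are not zero by
the example. -/
def S_GN : Prop := ∀ (N : ℕ) (K M : Type) [Field K] [CharZero K] [Field M] [Algebra K M],
  ∀ f : Ix N 1 → M, AlgebraicIndependent K f → (Hb f).det ≠ 0 ∧ (Fr f).det ≠ 0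

/-- (UU) the normalised self map, from `S_EQ`, `S_GN` and `S_ACT` of ME.
Proof: `φ g (Fr f) = Fr (g f g⁻¹) = g Fr f`, so `φ g (uu f) = uu (g f g⁻¹) = act (g F)⁻¹ (g F) (g f g⁻¹)
= uu f`. `ev (uu f) = F⁻¹ (ev f) = e_0`, `La (uu f) = F⁻¹ (La f) F`, `(La f) F e_j = F e_{j+1}`. The last
identity: `act F F⁻¹ (uu f) = f`. -/
def S_UU : Prop := ∀ (N : ℕ) (K M : Type) [Field K] [CharZero K] [Field M] [Algebra K M] (D : D2 N K M),
  (Fr D.f).det ≠ 0 ∧ (∀ g p, D.φ g (uu D.f p) = uu D.f p) ∧
  (Hb (uu D.f)).det ≠ 0 ∧ ev (uu D.f) = Pi.single 0 1 ∧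
  (∀ j j' : Fin (N + 1), (j : ℕ) + 1 = j' → ∀ i, La (uu D.f) i j = if i = j' then 1 else 0) ∧
  D.f = act (Fr D.f) (Fr D.f)⁻¹ (uu D.f)

/-- (LR) the linear relations, pure algebra. Let `T` be symmetric in the last two indices, with
`T i 0 j = [i = j + 1]` for `j < N` and `∑_i T i i j = ∑_{i,l} T i l 0 * T l i j` for all `j`. Then
(j = 0) `T N 0 N ` and `T (N-1) 0 N` are related by `a_N = a_N^2 + 2 a_{N-1}`, `a_i = T i 0 N`
(`tr A = a_N`, `tr A^2 = a_N^2 + 2 a_{N-1}`, `A i l = T i 0 l`), and for `j ≥ 1`: `T (j-1) j j = ∑_i T i i j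
- ∑_{i ≥ 1, i ≠ j} T (i-1) i j - ∑_i a_i T N i j`. Proof: only `l = i - 1`, with `T i 0 l = 1`, and
`l = N`, with `T i 0 N = a_i`, contribute to the sum over `l`. -/
def S_LR : Prop := ∀ (N : ℕ) (M : Type) [Field M] [CharZero M], 1 ≤ N →
  ∀ T : Fin (N + 1) → Fin (N + 1) → Fin (N + 1) → M, (∀ i j k, T i j k = T i k j) →
  (∀ j j' : Fin (N + 1), (j : ℕ) + 1 = j' → ∀ i, T i 0 j = if i = j' then 1 else 0) →
  (∀ j, ∑ i, T i i j = ∑ i, ∑ l, T i l 0 * T l i j) →
  (∀ i : Fin (N + 1), (i : ℕ) + 1 = N → T i 0 (Fin.last N) =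
    (T (Fin.last N) 0 (Fin.last N) - T (Fin.last N) 0 (Fin.last N) ^ 2) / 2) ∧
  ∀ i j : Fin (N + 1), (i : ℕ) + 1 = j → T i j j = ∑ i, T i i j -
    ∑ l : Fin N, (if l.succ = j then 0 else T l.castSucc l.succ j) -
    ∑ i, T i 0 (Fin.last N) * T (Fin.last N) i j

/-- the coordinates which are determined by the others: `e_0 e_j` for `j < N`, one coordinate of
`e_0 e_N` and one coordinate of `e_j e_j` for `j ≥ 1` -/
def Zc (N : ℕ) (p : Ix N 1) : Prop :=
  (∃ j : Fin (N + 1), (j : ℕ) < N ∧ p.2.1 = Finsupp.single 0 1 + Finsupp.single j 1) ∨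
  ((p.1 : ℕ) + 1 = N ∧ p.2.1 = Finsupp.single 0 1 + Finsupp.single (Fin.last N) 1) ∨
  ∃ j : Fin (N + 1), (p.1 : ℕ) + 1 = j ∧ p.2.1 = Finsupp.single j 2

/-- (CNT) their number. Proof: `(N+1) N + 1 + N`. -/
def S_CNT : Prop := ∀ N : ℕ, 1 ≤ N → Nat.card {p : Ix N 1 // Zc N p} = (N + 1) ^ 2

/-- (SO) generators of `K(uu f)`, from `S_UU`, `S_EQ`, `S_LR`, `S_T2`. Proof: let `u = uu f`,
`T = T2 u`. As `ev u = e_0`: `T i 0 j = La u i j`, and `Hb u (e_0, ·) = lv u` is the last hypothesis of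
`S_LR`. By `S_T2` (5) every `T2 u i j k` is `1` or `2` times a coordinate of `u`, and every coordinate
occurs. The right hand side of the equation of `S_LR` for `T (j-1) j j` contains only coordinates not in
`Zc`, the elements `a_i` (in the field by the equation for `a_{N-1}`) and `T i 0 j` (which are `0` or `1`,
or `a_i`). -/
def S_SO : Prop := ∀ (N : ℕ) (K M : Type) [Field K] [CharZero K] [Field M] [Algebra K M] (D : D2 N K M),
  ∀ p, uu D.f p ∈ IntermediateField.adjoin K (Set.range fun q : {q : Ix N 1 // ¬ Zc N q} => uu D.f q.1)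

/-- (INV) the invariants are rational functions of `uu f`, from `S_UU`, `S_DEN`. -/
def S_INV2 : Prop := ∀ (N : ℕ) (K M : Type) [Field K] [CharZero K] [Field M] [Algebra K M] (D : D2 N K M)
  (x : M), (∀ g, D.φ g x = x) → x ∈ IntermediateField.adjoin K (Set.range (uu D.f))

/-- (TDB) the transcendence degree, from `S_UU` and `S_TRD` of ME. -/
def S_TDB2 : Prop := ∀ (N : ℕ) (K M : Type) [Field K] [CharZero K] [Field M] [Algebra K M] (D : D2 N K M)
  (κ : Type) [Finite κ] (x : κ → M), IntermediateField.adjoin K (Set.range x) =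
    IntermediateField.adjoin K (Set.range (uu D.f)) →
  Nat.card κ + (N + 1) ^ 2 = Nat.card (Ix N 1) → AlgebraicIndependent K x

/-- (RAT) the field of invariants is purely transcendental, from `S_SO`, `S_CNT`, `S_TDB2`, `S_INV2`,
`S_UU`. -/
def S_RAT2 : Prop := ∀ (N : ℕ) (K M : Type) [Field K] [CharZero K] [Field M] [Algebra K M] (D : D2 N K M),
  ∃ (q : ℕ) (x : Fin q → M), AlgebraicIndependent K x ∧
    ∀ y : M, (∀ g, D.φ g y = y) ↔ y ∈ IntermediateField.adjoin K (Set.range x)

end Pool.Agent.T2h8.R2
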