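import Pool.Agent.T2h8.R2.Stm

/-! Task EQ of project R2. -/

set_option autoImplicit false

open MvPolynomial Pool.Agent.Z15.ME

namespace Pool.Agent.T2h8.R2

namespace EQ0

section
variable {R : Type} [CommRing R] {n : ℕ}

/-- the multiplication by `e_j` -/
noncomputable def Lm (c : Fin n × Mon n 2 → R) (j : Fin n) : Matrix (Fin n) (Fin n) R :=
  Matrix.of fun i l => T2 c i l j

lemma lv_eq (c : Fin n × Mon n 2 → R) (j : Fin n) : lv c j = (Lm c j).trace := rfl

lemma Hb_eq (c : Fin n × Mon n 2 → R) (j k : Fin n) : Hb c j k = (Lm c j * Lm c k).trace := by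
  simp only [Hb, Matrix.trace, Matrix.diag, Matrix.mul_apply, Matrix.of_apply, Lm]

lemma Lm_act (h : S_T2) (A A' : Matrix (Fin n) (Fin n) R) (c : Fin n × Mon n 2 → R) (j : Fin n) :
    Lm (act A A' c) j = ∑ j', A' j' j • (A * Lm c j' * A') := by
  ext i l
  simp only [Lm, Matrix.of_apply, Matrix.sum_apply, Matrix.smul_apply, smul_eq_mul]
  rw [(h n R).2.1 A A' c i l j]
  -- sums over i', l', j'
  have e1 : ∀ j', A' j' j * (A * Lm c j' * A') i l =
      ∑ i', ∑ l', A i i' * A' l' l * A' j' j * T2 c i' l' j' := by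
    intro j'
    rw [Matrix.mul_apply, Finset.mul_sum, Finset.sum_comm]
    refine Finset.sum_congr rfl fun l' _ => ?_
    rw [Matrix.mul_apply, Finset.sum_mul, Finset.mul_sum]
    refine Finset.sum_congr rfl fun i' _ => ?_
    simp only [Lm, Matrix.of_apply]
    ring
  have e2 : ∑ j', A' j' j * (A * (Matrix.of fun i l => T2 c i l j') * A') i l =
      ∑ j', ∑ i', ∑ l', A i i' * A' l' l * A' j' j * T2 c i' l' j' :=
    Finset.sum_congr rfl fun j' _ => e1 j'
  rw [e2]
  symm
  rw [Finset.sum_comm]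
  refine Finset.sum_congr rfl fun i' _ => ?_
  exact Finset.sum_comm

lemma tr_conj {A A' : Matrix (Fin n) (Fin n) R} (hA : A' * A = 1) (B : Matrix (Fin n) (Fin n) R) :
    (A * B * A').trace = B.trace := by
  rw [Matrix.trace_mul_comm, ← Matrix.mul_assoc, hA, Matrix.one_mul]

lemma lv_act (h : S_T2) {A A' : Matrix (Fin n) (Fin n) R} (hA : A' * A = 1)
    (c : Fin n × Mon n 2 → R) : lv (act A A' c) = A'.transpose.mulVec (lv c) := by
  funext j
  rw [lv_eq, Lm_act h, Matrix.trace_sum]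
  simp only [Matrix.mulVec, dotProduct, Matrix.transpose_apply]
  refine Finset.sum_congr rfl fun j' _ => ?_
  rw [Matrix.trace_smul, tr_conj hA, smul_eq_mul, lv_eq]

lemma Hb_act (h : S_T2) {A A' : Matrix (Fin n) (Fin n) R} (hA : A' * A = 1)
    (c : Fin n × Mon n 2 → R) : Hb (act A A' c) = A'.transpose * Hb c * A' := by
  ext j k
  rw [Hb_eq, Lm_act h, Lm_act h, Finset.sum_mul_sum, Matrix.trace_sum]
  have e1 : ∀ j', (∑ k', (A' j' j • (A * Lm c j' * A')) * (A' k' k • (A * Lm c k' * A'))).trace =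
      ∑ k', A' j' j * A' k' k * Hb c j' k' := by
    intro j'
    rw [Matrix.trace_sum]
    refine Finset.sum_congr rfl fun k' _ => ?_
    rw [Matrix.smul_mul, Matrix.mul_smul, Matrix.trace_smul, Matrix.trace_smul, smul_eq_mul,
      smul_eq_mul, Hb_eq, ← mul_assoc]
    congr 1
    have e : A * Lm c j' * A' * (A * Lm c k' * A') = A * (Lm c j' * Lm c k') * A' := by
      calc A * Lm c j' * A' * (A * Lm c k' * A') = A * Lm c j' * (A' * A) * Lm c k' * A' := by
            simp only [Matrix.mul_assoc]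
        _ = _ := by rw [hA, Matrix.mul_one]; simp only [Matrix.mul_assoc]
    rw [e, tr_conj hA]
  simp only [e1]
  rw [Matrix.mul_apply]
  have e2 : ∀ k', (A'.transpose * Hb c) j k' * A' k' k = ∑ j', A' j' j * A' k' k * Hb c j' k' := by
    intro k'
    rw [Matrix.mul_apply, Finset.sum_mul]
    refine Finset.sum_congr rfl fun j' _ => ?_
    rw [Matrix.transpose_apply]
    ring
  simp only [e2]
  rw [Finset.sum_comm]

lemma lv_nat (h : S_T2) {S : Type} [CommRing S] (σ : R →+* S) (c : Fin n × Mon n 2 → R)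
    (j : Fin n) : lv (fun p => σ (c p)) j = σ (lv c j) := by
  unfold lv
  rw [map_sum]
  exact Finset.sum_congr rfl fun i _ => (h n R).2.2.1 S σ c i i j

lemma Hb_nat (h : S_T2) {S : Type} [CommRing S] (σ : R →+* S) (c : Fin n × Mon n 2 → R) :
    Hb (fun p => σ (c p)) = (Hb c).map σ := by
  ext j k
  simp only [Hb, Matrix.of_apply, Matrix.map_apply, map_sum, map_mul, (h n R).2.2.1 S σ c]

lemma bv_nat (h : S_T2) {S : Type} [CommRing S] (σ : R →+* S) (c : Fin n × Mon n 2 → R)
    (i : Fin n) : bv (fun p => σ (c p)) i = σ (bv c i) := by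
  unfold bv
  rw [Hb_nat h, RingHom.map_mulVec]
  have e1 : ((Hb c).map σ).adjugate = (Hb c).adjugate.map σ := (RingHom.map_adjugate σ (Hb c)).symm
  rw [e1]
  congr 1
  funext j
  exact lv_nat h σ c j

end

section
variable {R : Type} [Field R] {n : ℕ}

lemma Hb_ev (c : Fin n × Mon n 2 → R) (hc : (Hb c).det ≠ 0) : (Hb c).mulVec (ev c) = lv c := by
  have e1 : ev c = (Hb c).det⁻¹ • (Hb c).adjugate.mulVec (lv c) := rfl
  rw [e1, Matrix.mulVec_smul, Matrix.mulVec_mulVec, Matrix.mul_adjugate, Matrix.smul_mulVec,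
    Matrix.one_mulVec, smul_smul, inv_mul_cancel₀ hc, one_smul]

lemma La_eq (c : Fin n × Mon n 2 → R) : La c = ∑ j, ev c j • Lm c j := by
  ext i k
  simp only [La, Matrix.of_apply, Matrix.sum_apply, Matrix.smul_apply, smul_eq_mul, Lm]

lemma ev_nat (h : S_T2) {S : Type} [Field S] (σ : R →+* S) (c : Fin n × Mon n 2 → R) (i : Fin n) :
    ev (fun p => σ (c p)) i = σ (ev c i) := by
  unfold ev
  rw [map_mul, map_inv₀, bv_nat h, Hb_nat h]
  have e1 : ((Hb c).map σ).det = σ (Hb c).det := (RingHom.map_det σ (Hb c)).symm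
  rw [e1]

end

end EQ0

open EQ0 in
theorem t_EQ (h_T2 : S_T2) : S_EQ := by
  refine ⟨fun n R _ c hc => ⟨Hb_ev c hc, fun A A' hA => ?_⟩, fun n R S _ _ σ c =>
    ⟨Hb_nat h_T2 σ c, bv_nat h_T2 σ c⟩, fun n R S _ _ σ c => ⟨?_, ev_nat h_T2 σ c⟩⟩
  · have hA2 : A' * A = 1 := mul_eq_one_comm.1 hA
    have hH := Hb_act h_T2 hA2 c
    have hdet : (Hb (act A A' c)).det ≠ 0 := by
      have h1 : A'.det * A.det = 1 := by rw [← Matrix.det_mul, hA2, Matrix.det_one]
      have h2 : A'.det ≠ 0 := left_ne_zero_of_mul_eq_one h1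
      rw [hH, Matrix.det_mul, Matrix.det_mul, Matrix.det_transpose]
      exact mul_ne_zero (mul_ne_zero h2 hc) h2
    have hev : ev (act A A' c) = A.mulVec (ev c) := by
      have h1 : (Hb (act A A' c)).mulVec (ev (act A A' c)) =
          (Hb (act A A' c)).mulVec (A.mulVec (ev c)) := by
        rw [Hb_ev _ hdet, hH, lv_act h_T2 hA2, Matrix.mulVec_mulVec, Matrix.mul_assoc _ A' A, hA2,
          Matrix.mul_one, ← Matrix.mulVec_mulVec, Hb_ev c hc]
      exact Matrix.mulVec_injective_of_isUnit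
        ((Matrix.isUnit_iff_isUnit_det _).2 (isUnit_iff_ne_zero.2 hdet)) h1
    refine ⟨hH, hdet, hev, ?_⟩
    rw [La_eq, La_eq]
    have e1 : ∀ j, ev (act A A' c) j • Lm (act A A' c) j =
        ∑ j', (A' j' j * ev (act A A' c) j) • (A * Lm c j' * A') := by
      intro j
      rw [Lm_act h_T2, Finset.smul_sum]
      refine Finset.sum_congr rfl fun j' _ => ?_
      rw [smul_smul, mul_comm]
    simp only [e1]
    rw [Finset.sum_comm]
    have e2 : ∀ j', ∑ j, (A' j' j * ev (act A A' c) j) • (A * Lm c j' * A') =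
        ev c j' • (A * Lm c j' * A') := by
      intro j'
      rw [← Finset.sum_smul]
      congr 1
      have e3 : A'.mulVec (ev (act A A' c)) = ev c := by
        rw [hev, Matrix.mulVec_mulVec, hA2, Matrix.one_mulVec]
      exact congrFun e3 j'
    simp only [e2]
    rw [Matrix.mul_sum, Matrix.sum_mul]
    refine Finset.sum_congr rfl fun j' _ => ?_
    rw [Matrix.mul_smul, Matrix.smul_mul]
  · ext i k
    simp only [La, Matrix.of_apply, Matrix.map_apply, map_sum, map_mul, ev_nat h_T2 σ c,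
      (h_T2 n R).2.2.1 S σ c]

end Pool.Agent.T2h8.R2
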