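import Pool.Agent.T2h8.R2.Stm

set_option autoImplicit false

open MvPolynomial Pool.Agent.Z15.ME Matrix

namespace Pool.Agent.T2h8.R2

namespace EXaux

/-- `i = j` or `i + 1 = j` -/
def tt (N : ℕ) (i j : Fin (N + 1)) : ℚ := if (i : ℕ) = j ∨ (i : ℕ) + 1 = j then 1 else 0

theorem tt_self (N : ℕ) (i : Fin (N + 1)) : tt N i i = 1 := if_pos (Or.inl rfl)

theorem tt_succ (N : ℕ) (i k : Fin (N + 1)) (h : (i : ℕ) + 1 = k) : tt N i k = 1 :=
  if_pos (Or.inr h)

open scoped Classical in
/-- the example -/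
noncomputable def cc (N : ℕ) : Ix N 1 → ℚ := fun p =>
  ∑ j : Fin (N + 1), if p.2.1 = Finsupp.single j 2 then tt N p.1 j / 2 else 0

theorem T2_cc (h : S_T2) (N : ℕ) (i j k : Fin (N + 1)) :
    T2 (cc N) i j k = if j = k then tt N i j else 0 := by
  classical
  obtain ⟨-, -, -, h4⟩ := h (N + 1) ℚ
  have hdeg : (Finsupp.single j 1 + Finsupp.single k 1 : Fin (N + 1) →₀ ℕ).degree = 2 := by
    rw [map_add, Finsupp.degree_single, Finsupp.degree_single]
  rw [h4 i j k ⟨Finsupp.single j 1 + Finsupp.single k 1, hdeg⟩ rfl]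
  by_cases hjk : j = k
  · subst hjk
    rw [if_pos rfl, if_pos rfl]
    have e1 : cc N (i, ⟨Finsupp.single j 1 + Finsupp.single j 1, hdeg⟩) = tt N i j / 2 := by
      unfold cc
      rw [Finset.sum_eq_single j]
      · rw [if_pos]
        show Finsupp.single j 1 + Finsupp.single j 1 = Finsupp.single j 2
        rw [← Finsupp.single_add]
      · intro b _ hb
        rw [if_neg]
        show ¬ Finsupp.single j 1 + Finsupp.single j 1 = Finsupp.single b 2
        rw [← Finsupp.single_add]
        intro hh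
        exact hb ((Finsupp.single_left_injective (by norm_num)) hh).symm
      · intro hh
        exact absurd (Finset.mem_univ _) hh
    rw [e1]
    ring
  · rw [if_neg hjk, if_neg hjk, one_mul]
    unfold cc
    apply Finset.sum_eq_zero
    intro b _
    rw [if_neg]
    show ¬ Finsupp.single j 1 + Finsupp.single k 1 = Finsupp.single b 2
    intro hh
    have h1 := DFunLike.congr_fun hh j
    rw [Finsupp.add_apply, Finsupp.single_eq_same, Finsupp.single_apply, if_neg (Ne.symm hjk),
      Finsupp.single_apply] at h1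
    split_ifs at h1
    omega

theorem lv_cc (h : S_T2) (N : ℕ) (j : Fin (N + 1)) : lv (cc N) j = 1 := by
  unfold lv
  rw [Finset.sum_eq_single j]
  · rw [T2_cc h, if_pos rfl]
    simp [tt]
  · intro b _ hb
    rw [T2_cc h, if_neg hb]
  · intro hh
    exact absurd (Finset.mem_univ _) hh

theorem Hb_cc (h : S_T2) (N : ℕ) : Hb (cc N) = 1 := by
  ext j k
  unfold Hb
  rw [Matrix.of_apply, Finset.sum_eq_single k]
  · rw [Finset.sum_eq_single j]
    · rw [T2_cc h, T2_cc h, if_pos rfl, if_pos rfl, Matrix.one_apply]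
      by_cases hjk : j = k
      · subst hjk
        simp [tt]
      · rw [if_neg hjk]
        unfold tt
        have hjk' : (j : ℕ) ≠ k := fun hh => hjk (Fin.ext hh)
        by_cases h1 : (k : ℕ) + 1 = j
        · rw [if_pos (Or.inr h1), if_neg (by omega)]
          norm_num
        · rw [if_neg (by omega), zero_mul]
    · intro l _ hl
      rw [T2_cc h, if_neg hl, zero_mul]
    · intro hh
      exact absurd (Finset.mem_univ _) hh
  · intro i _ hi
    apply Finset.sum_eq_zero
    intro l _
    rw [T2_cc h N l i k, if_neg hi, mul_zero]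
  · intro hh
    exact absurd (Finset.mem_univ _) hh

theorem ev_cc (h : S_T2) (N : ℕ) : ev (cc N) = fun _ => 1 := by
  funext i
  unfold ev bv
  rw [Hb_cc h, Matrix.det_one, Matrix.adjugate_one, Matrix.one_mulVec, lv_cc h]
  norm_num

theorem La_cc (h : S_T2) (N : ℕ) : La (cc N) = Matrix.of (tt N) := by
  ext i k
  unfold La
  rw [Matrix.of_apply, Matrix.of_apply, Finset.sum_eq_single k]
  · rw [T2_cc h, if_pos rfl, ev_cc h, one_mul]
  · intro j _ hj
    rw [T2_cc h, if_neg (Ne.symm hj), mul_zero]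
  · intro hh
    exact absurd (Finset.mem_univ _) hh

theorem pow_cc (N j : ℕ) (i : Fin (N + 1)) :
    (((Matrix.of (tt N)) ^ j).mulVec (fun _ => 1)) i =
      ∑ m ∈ Finset.range (N - i + 1), (Nat.choose j m : ℚ) := by
  induction j generalizing i with
  | zero =>
    rw [pow_zero, Matrix.one_mulVec, Finset.sum_range_succ']
    simp
  | succ j ih =>
    rw [pow_succ', ← Matrix.mulVec_mulVec]
    have e1 : ((Matrix.of (tt N)).mulVec (((Matrix.of (tt N)) ^ j).mulVec (fun _ => 1))) i =
        ∑ k, tt N i k * ∑ m ∈ Finset.range (N - k + 1), (Nat.choose j m : ℚ) := by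
      change ∑ k, tt N i k * (((Matrix.of (tt N)) ^ j).mulVec (fun _ => 1)) k = _
      exact Finset.sum_congr rfl fun k _ => by rw [ih k]
    rw [e1]
    by_cases hi : (i : ℕ) < N
    · have hi' : (i : ℕ) + 1 < N + 1 := by omega
      have hne : i ≠ ⟨(i : ℕ) + 1, hi'⟩ := by
        intro hh
        have := congrArg Fin.val hh
        simp at this
      rw [Finset.sum_eq_add i ⟨(i : ℕ) + 1, hi'⟩ hne]
      · obtain ⟨r, hr⟩ : ∃ r, N - (i : ℕ) = r + 1 := ⟨N - i - 1, by omega⟩
        have hr' : N - ((i : ℕ) + 1) = r := by omega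
        rw [tt_self, tt_succ N i ⟨(i : ℕ) + 1, hi'⟩ rfl, one_mul, one_mul]
        change ∑ m ∈ Finset.range (N - (i : ℕ) + 1), (Nat.choose j m : ℚ) +
          ∑ m ∈ Finset.range (N - ((i : ℕ) + 1) + 1), (Nat.choose j m : ℚ) = _
        rw [hr', hr]
        rw [Finset.sum_range_succ' (fun m => (Nat.choose (j + 1) m : ℚ)) (r + 1),
          Finset.sum_range_succ' (fun m => (Nat.choose j m : ℚ)) (r + 1)]
        have e2 : ∀ m ∈ Finset.range (r + 1), ((Nat.choose (j + 1) (m + 1) : ℕ) : ℚ) =
            (Nat.choose j (m + 1) : ℚ) + (Nat.choose j m : ℚ) := by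
          intro m _
          rw [Nat.choose_succ_succ]
          push_cast
          ring
        rw [Finset.sum_congr rfl e2, Finset.sum_add_distrib]
        simp
        ring
      · intro k _ hk
        have h1 : (i : ℕ) ≠ k := fun hh => hk.1 (Fin.ext hh.symm)
        have h2 : (i : ℕ) + 1 ≠ k := fun hh => hk.2 (Fin.ext hh.symm)
        simp only [tt]
        rw [if_neg (by tauto), zero_mul]
      · intro hh
        exact absurd (Finset.mem_univ _) hh
      · intro hh
        exact absurd (Finset.mem_univ _) hh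
    · have hiN : (i : ℕ) = N := by have := i.2; omega
      rw [Finset.sum_eq_single i]
      · rw [tt_self, one_mul, hiN]
        simp
      · intro k _ hk
        have h1 : (i : ℕ) ≠ k := fun hh => hk (Fin.ext hh.symm)
        have h2 : (i : ℕ) + 1 ≠ k := by have := k.2; omega
        simp only [tt]
        rw [if_neg (by tauto), zero_mul]
      · intro hh
        exact absurd (Finset.mem_univ _) hh

theorem rev_eq (h : S_T2) (N : ℕ) : (Fr (cc N)).submatrix Fin.revPerm id =
    (Matrix.of fun i m : Fin (N + 1) => if m ≤ i then (1 : ℚ) else 0) *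
      (Matrix.of fun m j : Fin (N + 1) => (Nat.choose (j : ℕ) (m : ℕ) : ℚ)) := by
  ext i j
  rw [Matrix.submatrix_apply, Matrix.mul_apply]
  unfold Fr
  rw [Matrix.of_apply, La_cc h, ev_cc h, pow_cc]
  have e1 : N - ((Fin.revPerm i : Fin (N + 1)) : ℕ) + 1 = (i : ℕ) + 1 := by
    rw [Fin.revPerm_apply, Fin.val_rev]
    have := i.2
    omega
  rw [e1]
  simp only [Matrix.of_apply, id]
  have e2 : ∀ m : Fin (N + 1), (if m ≤ i then (1 : ℚ) else 0) * (Nat.choose (j : ℕ) (m : ℕ) : ℚ) =
      (fun m : ℕ => if m ≤ (i : ℕ) then (Nat.choose (j : ℕ) m : ℚ) else 0) (m : ℕ) := by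
    intro m
    have : m ≤ i ↔ (m : ℕ) ≤ (i : ℕ) := Iff.rfl
    by_cases hm : m ≤ i
    · simp only [if_pos hm, if_pos (this.1 hm), one_mul]
    · simp only [if_neg hm, if_neg (fun hh => hm (this.2 hh)), zero_mul]
  rw [Finset.sum_congr rfl fun m _ => e2 m, Fin.sum_univ_eq_sum_range
    (fun m : ℕ => if m ≤ (i : ℕ) then (Nat.choose (j : ℕ) m : ℚ) else 0) (N + 1), ← Finset.sum_filter]
  refine Finset.sum_congr ?_ fun _ _ => rfl
  ext m
  rw [Finset.mem_range, Finset.mem_filter, Finset.mem_range]
  have := i.2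
  omega

end EXaux

open EXaux in
theorem t_EX (h_T2 : S_T2) (_h_EQ : S_EQ) : S_EX := by
  intro N
  refine ⟨cc N, ?_, ?_⟩
  · rw [Hb_cc h_T2, Matrix.det_one]
    norm_num
  · intro h0
    have h1 := Matrix.det_permute (Fin.revPerm : Equiv.Perm (Fin (N + 1))) (Fr (cc N))
    rw [h0, mul_zero, rev_eq h_T2, Matrix.det_mul, Matrix.det_of_isLowerTriangular,
      Matrix.det_of_isUpperTriangular] at h1
    · simp at h1
    · intro i j hij
      rw [Matrix.of_apply]
      have : (j : ℕ) < (i : ℕ) := hij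
      rw [Nat.choose_eq_zero_of_lt this]
      norm_num
    · intro i j hij
      rw [Matrix.of_apply, if_neg]
      have : i < j := hij
      exact not_le.2 this

end Pool.Agent.T2h8.R2
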