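import Pool.Agent.T2h8.R2.Stm

/-! The linear relations (task LR of project R2). -/

set_option autoImplicit false

open MvPolynomial Pool.Agent.Z15.ME

namespace Pool.Agent.T2h8.R2

theorem t_LR : S_LR := by
  intro N M _ _ hN T hs h1 h2
  have h1' : ∀ (l : Fin N) (i : Fin (N + 1)), T i 0 l.castSucc = if i = l.succ then 1 else 0 :=
    fun l i => h1 l.castSucc l.succ (by simp) i
  -- the relation
  have key : ∀ j, ∑ i, T i i j = ∑ l : Fin N, T l.castSucc l.succ j +
      ∑ i, T i 0 (Fin.last N) * T (Fin.last N) i j := by
    intro j
    rw [h2 j, Finset.sum_comm, Fin.sum_univ_castSucc]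
    congr 1
    · refine Finset.sum_congr rfl fun l _ => ?_
      rw [Finset.sum_eq_single l.succ]
      · rw [hs, h1', if_pos rfl, one_mul]
      · intro i _ hi
        rw [hs, h1', if_neg hi, zero_mul]
      · intro h
        exact absurd (Finset.mem_univ _) h
    · refine Finset.sum_congr rfl fun i _ => ?_
      rw [hs i (Fin.last N) 0]
  constructor
  · intro i hi
    have h3 := key 0
    obtain ⟨l, rfl⟩ : ∃ l : Fin N, i = l.castSucc := ⟨⟨i, by omega⟩, by ext; simp⟩
    have hl : l.succ = Fin.last N := by
      ext
      simpa using hi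
    have e1 : ∑ i, T i i 0 = T (Fin.last N) 0 (Fin.last N) := by
      rw [Fin.sum_univ_castSucc, Finset.sum_eq_zero, zero_add, hs]
      intro m _
      rw [hs, h1', if_neg]
      intro h
      have := congrArg Fin.val h
      simp at this
    have e2 : ∑ m : Fin N, T m.castSucc m.succ 0 = T l.castSucc 0 (Fin.last N) := by
      rw [Finset.sum_eq_single l]
      · rw [hs, hl]
      · intro m _ hm
        have hm2 : (m : ℕ) + 1 < N := by
          have h4 : (m : ℕ) ≠ l := fun h => hm (Fin.ext h)
          have h5 : (l : ℕ) + 1 = N := by simpa using hi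
          have := m.2
          omega
        rw [hs, h1 m.succ ⟨(m : ℕ) + 2, by omega⟩ (by simp) m.castSucc, if_neg]
        intro h
        have := congrArg Fin.val h
        simp at this
      · intro h
        exact absurd (Finset.mem_univ _) h
    have e3 : ∑ i, T i 0 (Fin.last N) * T (Fin.last N) i 0 =
        T l.castSucc 0 (Fin.last N) + T (Fin.last N) 0 (Fin.last N) ^ 2 := by
      rw [Fin.sum_univ_castSucc]
      congr 1
      · rw [Finset.sum_eq_single l]
        · rw [hs (Fin.last N) l.castSucc 0, h1', if_pos hl.symm, mul_one]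
        · intro m _ hm
          rw [hs (Fin.last N) m.castSucc 0, h1', if_neg, mul_zero]
          intro h
          rw [← hl] at h
          exact hm (Fin.succ_injective _ h).symm
        · intro h
          exact absurd (Finset.mem_univ _) h
      · rw [hs (Fin.last N) (Fin.last N) 0, sq]
    rw [e1, e2, e3] at h3
    have h2' : (2 : M) ≠ 0 := two_ne_zero
    field_simp
    linear_combination -h3
  · intro i j hij
    obtain ⟨l, rfl⟩ : ∃ l : Fin N, i = l.castSucc := ⟨⟨i, by omega⟩, by ext; simp⟩
    obtain rfl : j = l.succ := by
      ext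
      simpa using hij.symm
    rw [key l.succ]
    have e1 : ∑ m : Fin N, T m.castSucc m.succ l.succ =
        T l.castSucc l.succ l.succ +
          ∑ m : Fin N, (if m.succ = l.succ then 0 else T m.castSucc m.succ l.succ) := by
      rw [← Finset.add_sum_erase _ _ (Finset.mem_univ l),
        ← Finset.add_sum_erase _ (fun m : Fin N =>
          if m.succ = l.succ then (0 : M) else T m.castSucc m.succ l.succ) (Finset.mem_univ l),
        if_pos rfl, zero_add]
      congr 1
      refine Finset.sum_congr rfl fun m hm => ?_
      rw [if_neg]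
      intro h
      exact (Finset.ne_of_mem_erase hm) (Fin.succ_injective _ h)
    rw [e1]
    ring

end Pool.Agent.T2h8.R2
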