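import Pool.Agent.T2h8.R2.Stm

set_option autoImplicit false

open MvPolynomial Pool.Agent.Z15.ME

namespace Pool.Agent.T2h8.R2

theorem t_RAT (h_SO : S_SO) (h_CNT : S_CNT) (h_TDB2 : S_TDB2) (h_INV2 : S_INV2) (h_UU : S_UU) :
    S_RAT2 := by
  intro N K M _ _ _ _ D
  classical
  let κ := {q : Ix N 1 // ¬ Zc N q}
  let x : κ → M := fun q => uu D.f q.1
  have hx : IntermediateField.adjoin K (Set.range x) = IntermediateField.adjoin K (Set.range (uu D.f)) := by
    apply le_antisymm
    · rw [IntermediateField.adjoin_le_iff]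
      rintro _ ⟨q, rfl⟩
      exact IntermediateField.subset_adjoin K _ ⟨q.1, rfl⟩
    · rw [IntermediateField.adjoin_le_iff]
      rintro _ ⟨p, rfl⟩
      exact h_SO N K M D p
  have hcard : Nat.card κ + (N + 1) ^ 2 = Nat.card (Ix N 1) := by
    rw [← h_CNT N D.hN, add_comm, ← Nat.card_sum]
    exact Nat.card_congr (Equiv.sumCompl (Zc N))
  have hxi : AlgebraicIndependent K x := h_TDB2 N K M D κ x hx hcard
  have hmem : ∀ y : M, (∀ g, D.φ g y = y) ↔ y ∈ IntermediateField.adjoin K (Set.range x) := by
    intro y
    constructor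
    · intro hy
      rw [hx]
      exact h_INV2 N K M D y hy
    · intro hy g
      rw [hx] at hy
      have h6 : IntermediateField.adjoin K (Set.range (uu D.f)) ≤
          { carrier := {z | D.φ g z = z}
            mul_mem' := by intro a b ha hb; change D.φ g _ = _; rw [map_mul, ha, hb]
            add_mem' := by intro a b ha hb; change D.φ g _ = _; rw [map_add, ha, hb]
            algebraMap_mem' := by intro c; change D.φ g _ = _; rw [AlgHom.commutes]
            inv_mem' := by intro a ha; change D.φ g _ = _; rw [map_inv₀, ha] } := by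
        rw [IntermediateField.adjoin_le_iff]
        rintro _ ⟨p, rfl⟩
        exact (h_UU N K M D).2.1 g p
      exact h6 hy
  let e : Fin (Nat.card κ) ≃ κ := (Finite.equivFin κ).symm
  refine ⟨Nat.card κ, x ∘ e, hxi.comp e e.injective, ?_⟩
  have hr : Set.range (x ∘ e) = Set.range x := e.surjective.range_comp x
  rw [hr]
  exact hmem

end Pool.Agent.T2h8.R2
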